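import Pool.Agent.H635.RF.Ng

/-!
# Dominating reals do not give Goldstern's principle for `Δ¹₂` sets

There is a model of ZFC in which for every real `a` some real dominates the reals of `L[a]`, but in
which Goldstern's principle fails for a `Δ¹₂` subset of `ω^ω × 2^ω`.

The proof. Let `M` be a countable transitive model of `V = L`, and let `N` be the extension of `M`
by the finite support iteration of Hechler forcing of length `ω₁`. The initial parts of the
iteration are `σ`-centered, so `N` has no random reals over `M`: every point `y` of `2^ω` is in a
null set `limsup U_m` that is given by a sequence in `M` of clopen sets `U_m` of measure at most
`m 4^(-m)`. Let `A` be the set of the points `(x, y)` such that for some such sequence in the first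
level `L_ξ` that has a sequence for `y` and for all `n` the point `y` is in `U_m` for some `m` with
`n ≤ m ≤ x(n)`. Both `A` and its complement are `Σ¹₂`, the sections of `A` increase with `x`, and
every point `y` is in a section. Each section is a union of closed null sets that are given by
sequences in `M` and by `x`, and the next generic real gives a null set that covers all of them.
-/

set_option autoImplicit false

namespace Pool.Agent.Results.MP_2c8569_lc.DominatingWithoutGoldstern

open Pool.Agent.W868
open Pool.Agent.H635.RF

/-- There is a countable transitive model `N` of ZFC such that in `N` for every real `a` there is a
real that dominates the reals of `L[a]`, and Goldstern's principle for `Δ¹₂` sets fails (for a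
subset of `ω^ω × 2^ω` and the product measure on `2^ω`). -/
theorem result : ∃ N : Set ZFSet.{0}, N.Countable ∧ IsZFC N ∧ StD N ∧ ¬ StGP N := exists_model_gp

end Pool.Agent.Results.MP_2c8569_lc.DominatingWithoutGoldstern
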